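import Pool.Agent.NH14.LI.N19

/-!
# The exact maximal order of the error term of the circle problem along almost all sequences of powers

Let `P(R)` be the error term of the circle problem and
`ψ(n) = (log n) ^ (1/4) (log log n) ^ ((3/4)(2 ^ (1/3) - 1))`.  There are absolute constants `0 < c < C` such that,
whenever `a_{n+1} ≥ a_n + δ` with `δ > 0` and `b_n > 0` is nondecreasing, for almost all `α > 1` the points
`R_n = b_n α ^ (a_n)` satisfy `|P(R_n)| ≤ C √R_n ψ(n)` for all large `n`, while `P(R_n) ≥ c √R_n ψ(n)` for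
infinitely many `n` and `P(R_n) ≤ - c √R_n ψ(n)` for infinitely many `n`.

Proof.  Let `U_M` be the truncation at frequencies `≤ M²` of the trigonometric series of `P(R)/√R`; along `R_n` it
approximates `P(R_n)/√R_n` for almost all `α` if `M = (n+1)^400`.
Upper bound: the moments of order `2k` of the model `U_M` are at most
`(C k ^ (1/4) (log k) ^ ((3/4)(2^(1/3)-1)))^(2k)`; this follows from the bound
`exp(C l^(4/3) (log l) ^ (2^(1/3) - 1))` for its moment generating function, a product over squarefree numbers.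
With `k` a small multiple of `log n` the moments along `R_n`, averaged over `log α`, are close to those of the model
by the first derivative test and a Liouville type inequality for sums of square roots.
Lower bound: Riesz products over optimal sets of at most `(log j)/8` squarefree numbers, along `n = j²`, show that
`± U_M(R_n)` exceeds `c ψ(n)` on sets of parameters of positive weighted measure; these sets are nearly
uncorrelated, so that the points in infinitely many of them have a positive proportion in every interval.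
-/

set_option autoImplicit false

open MeasureTheory Filter Topology Set

namespace Pool.Agent.Results.MP_fb29e9_nt.ExactOrderPowers

/-- the error term of the circle problem -/
noncomputable def P (R : ℝ) : ℝ :=
  (Nat.card {p : ℤ × ℤ // (p.1 : ℝ) ^ 2 + (p.2 : ℝ) ^ 2 ≤ R ^ 2} : ℝ) - Real.pi * R ^ 2

/-- the normalizing function -/
noncomputable def psi (n : ℕ) : ℝ :=
  (Real.log n) ^ (1 / 4 : ℝ) * (Real.log (Real.log n)) ^ ((3 / 4) * ((2 : ℝ) ^ (1 / 3 : ℝ) - 1))

theorem result : ∃ c C : ℝ, 0 < c ∧ 0 < C ∧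
    ∀ (a b : ℕ → ℝ) (δ : ℝ), 0 < δ → (∀ n, a n + δ ≤ a (n + 1)) → (∀ n, 0 < b n) → Monotone b →
      ∀ᵐ α : ℝ, 1 < α →
        (∀ᶠ n : ℕ in atTop, |P (b n * α ^ (a n))| ≤ C * (√(b n * α ^ (a n)) * psi n)) ∧
        (∃ᶠ n : ℕ in atTop, c * (√(b n * α ^ (a n)) * psi n) ≤ P (b n * α ^ (a n))) ∧
        (∃ᶠ n : ℕ in atTop, P (b n * α ^ (a n)) ≤ -(c * (√(b n * α ^ (a n)) * psi n))) := by
  obtain ⟨c, C, hc, hC, h⟩ := Pool.Agent.NH14.LI.lil_circ
  refine ⟨c, C, hc, hC, fun a b δ hδ hgap hb hmono => ?_⟩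
  filter_upwards [h a b δ hδ hgap hb hmono] with α hα h1
  obtain ⟨k1, k2, k3⟩ := hα h1
  have hpos : ∀ n, 0 < b n * α ^ (a n) := fun n => mul_pos (hb n) (Real.rpow_pos_of_pos (by linarith) _)
  have hP : ∀ R : ℝ, 0 < R → P R = √R * Pool.Agent.H383.Gauss.En R := by
    intro R hR
    have e1 : P R / √R = Pool.Agent.H383.Gauss.En R := rfl
    have hs : 0 < √R := Real.sqrt_pos.mpr hR
    rw [← e1]; field_simp
  have hps : ∀ n : ℕ, psi n = Pool.Agent.NH14.LI.psi (3 / 4 * ((2:ℝ) ^ (1 / 3 : ℝ) - 1)) (Real.log n) := fun n => rfl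
  refine ⟨?_, ?_, ?_⟩
  · filter_upwards [k1] with n hn
    have hs : 0 < √(b n * α ^ (a n)) := Real.sqrt_pos.mpr (hpos n)
    rw [hP _ (hpos n), abs_mul, abs_of_pos hs, hps]
    calc √(b n * α ^ (a n)) * |Pool.Agent.H383.Gauss.En (b n * α ^ (a n))| ≤ √(b n * α ^ (a n)) * (C * _) :=
          mul_le_mul_of_nonneg_left hn hs.le
      _ = _ := by ring
  · refine k2.mono fun n hn => ?_
    have hs : 0 < √(b n * α ^ (a n)) := Real.sqrt_pos.mpr (hpos n)
    rw [hP _ (hpos n), hps]
    calc _ = √(b n * α ^ (a n)) * (c * Pool.Agent.NH14.LI.psi (3 / 4 * ((2:ℝ) ^ (1 / 3 : ℝ) - 1)) (Real.log n)) := by ring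
      _ ≤ _ := mul_le_mul_of_nonneg_left hn hs.le
  · refine k3.mono fun n hn => ?_
    have hs : 0 < √(b n * α ^ (a n)) := Real.sqrt_pos.mpr (hpos n)
    rw [hP _ (hpos n), hps]
    calc √(b n * α ^ (a n)) * Pool.Agent.H383.Gauss.En (b n * α ^ (a n)) ≤
          √(b n * α ^ (a n)) * -(c * Pool.Agent.NH14.LI.psi (3 / 4 * ((2:ℝ) ^ (1 / 3 : ℝ) - 1)) (Real.log n)) :=
          mul_le_mul_of_nonneg_left hn hs.le
      _ = _ := by ring

end Pool.Agent.Results.MP_fb29e9_nt.ExactOrderPowers
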