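import Pool.Agent.NH14.TL.T5

/-!
# The exact order of the frequency of large values of the error term in the circle problem

Let `P(R) = #{p ∈ ℤ² : |p| ≤ R} - πR²` and `T(V) = V⁴ (log V) ^ (-3(2^(1/3) - 1))`. There are absolute constants
`0 < c < C` such that, for every real quadratic polynomial `Q(n) = an² + bn + c₀` with `a > 0` and positive values
(for instance for all integer radii, or for the terms of an arithmetic progression of radii), along the radii
`R_n = √Q(n)` the proportion of the `n` with `P(R_n) > V √R_n` lies, in every interval `k ≤ n < k + N` with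
`N ≥ k^(1/2+ε)`, between `exp(-C T(V))` and `exp(-c T(V))`, for all `V ≥ V₀(Q)` and `N ≥ N₀(Q, V, ε)`, and the same
holds for `P(R_n) < -V √R_n`.

Upper bound: the moment generating function of the limit law is `≤ exp(C l^(4/3) (log l)^(2^(1/3) - 1))`, by a
factorisation over squarefree numbers. Lower bound: Riesz products over optimal sets of squarefree numbers outside the
finitely many classes which are resonant with the sequence.
-/

set_option autoImplicit false

open Filter Topology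

namespace Pool.Agent.Results.MP_fb29e9_nt.ExactTails

/-- the error term of the circle problem -/
noncomputable def P (R : ℝ) : ℝ :=
  (Nat.card {p : ℤ × ℤ // (p.1 : ℝ) ^ 2 + (p.2 : ℝ) ^ 2 ≤ R ^ 2} : ℝ) - Real.pi * R ^ 2

/-- the radii -/
noncomputable def rad (a b c : ℝ) (n : ℕ) : ℝ := √(a * n ^ 2 + b * n + c)

/-- the order of the logarithm of the tails -/
noncomputable def T (V : ℝ) : ℝ := V ^ 4 * (Real.log V) ^ (-(3 * ((2 : ℝ) ^ (1 / 3 : ℝ) - 1)))

open Classical in
/-- the number of `k ≤ n < k + N` with `σ P(R_n) > V √R_n` -/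
noncomputable def count (a b c σ V : ℝ) (k N : ℕ) : ℕ :=
  ((Finset.Ico k (k + N)).filter (fun n : ℕ => V * √(rad a b c n) < σ * P (rad a b c n))).card

theorem result : ∃ c₁ C₁ : ℝ, 0 < c₁ ∧ 0 < C₁ ∧
    ∀ a b c : ℝ, 0 < a → (∀ n : ℕ, 0 < a * n ^ 2 + b * n + c) →
      ∃ V₀ : ℝ, 2 ≤ V₀ ∧ ∀ V : ℝ, V₀ ≤ V → ∀ ε : ℝ, 0 < ε → ∃ N₀ : ℕ, ∀ N : ℕ, N₀ ≤ N → ∀ k : ℕ,
        (k : ℝ) ^ (1 / 2 + ε) ≤ N → ∀ σ : ℝ, (σ = 1 ∨ σ = -1) →
          Real.exp (-(C₁ * T V)) * N ≤ count a b c σ V k N ∧ (count a b c σ V k N : ℝ) ≤ Real.exp (-(c₁ * T V)) * N := by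
  classical
  obtain ⟨c₁, C₁, h1, h2, h⟩ := Pool.Agent.NH14.TL.tails_circ
  refine ⟨c₁, C₁, h1, h2, fun a b c ha hP => ?_⟩
  obtain ⟨V₀, hV₀, h⟩ := h a b c ha hP
  refine ⟨V₀, hV₀, fun V hV ε hε => ?_⟩
  obtain ⟨N₀, h⟩ := h V hV ε hε
  refine ⟨N₀, fun N hN k hk => ?_⟩
  have hT : Pool.Agent.NH14.TL.LV (3/4 * ((2:ℝ)^(1/3:ℝ) - 1)) V = T V :=
    Pool.Agent.NH14.TL.LV_val (by ring) V
  have hk' := h N hN k hk
  rw [hT] at hk'
  have hs : ∀ n : ℕ, √(rad a b c n) = (a * n ^ 2 + b * n + c) ^ (1/4:ℝ) := by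
    intro n
    unfold rad
    rw [Real.sqrt_eq_rpow, Real.sqrt_eq_rpow, ← Real.rpow_mul (hP n).le]
    norm_num
  have hPR : ∀ n : ℕ, P (rad a b c n) = Pool.Agent.H383.Circ.Cx (a * n ^ 2 + b * n + c) := by
    intro n
    unfold P rad
    rw [Real.sq_sqrt (hP n).le]
    rfl
  intro σ hσ
  rcases hσ with rfl | rfl
  · have e : count a b c 1 V k N = ((Finset.Ico k (k + N)).filter (fun n : ℕ =>
            V * (a * n^2 + b * n + c) ^ (1/4:ℝ) < Pool.Agent.H383.Circ.Cx (a * n^2 + b * n + c))).card := by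
      unfold count
      congr 1
      apply Finset.filter_congr
      intro n _
      rw [hs, hPR, one_mul]
    rw [e]
    exact hk'.1
  · have e : count a b c (-1) V k N = ((Finset.Ico k (k + N)).filter (fun n : ℕ =>
            Pool.Agent.H383.Circ.Cx (a * n^2 + b * n + c) < -(V * (a * n^2 + b * n + c) ^ (1/4:ℝ)))).card := by
      unfold count
      congr 1
      apply Finset.filter_congr
      intro n _
      rw [hs, hPR]
      constructor <;> intro hh <;> linarith
    rw [e]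
    exact hk'.2

end Pool.Agent.Results.MP_fb29e9_nt.ExactTails
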