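import Pool.Agent.NH14.SM.S6

/-!
# The error term of the circle problem at well-spaced radii

Let `P(t) = #{p ∈ ℤ² : |p| ≤ t} - πt²`. Let `T ⊂ [X, X + H]` be any finite set of real radii (`4 ≤ X`, `0 ≤ H ≤ X`) whose
points are at distance `≥ δ` from each other, where `1/X ≤ δ ≤ 1`.

* Large values. If `|P(t)| ≥ V √t` for all `t ∈ T`, where `V ≥ 1`, then
  `#T ≤ C X^ε (H/V⁶ + H/(V⁸ δ) + X^(1/2)/V³ + 1/(V² δ))`.
* Hence, for `0 ≤ p ≤ 8`,
  `∑_{t ∈ T} |P(t)|^p ≤ C X^(p/2+ε) (H/δ + H X^(max(0,(p-6)/6)) + X^(max(1/2,p/6)) + X^(max(0,(p-2)/6))/δ)`.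
  In particular, for `p ≤ 6`, over the whole interval `[X, 2X]` and for all spacings `δ ≤ 1`, the mean value of `|P(t)|^p`
  over any `≈ X/δ` radii of mutual distance `≥ δ` is at most `X^(p/2+ε)`, the conjectured size.

For instance, taking for `T` the radii at which `|P|` is (nearly) maximal on the intervals `[n, n+1]`, `n` even, and then
those for `n` odd, `∑_{n ≤ N} max_{[n,n+1]} |P|^p ≪ N^(1+p/2+ε)` for `p ≤ 6` (`Pool.Agent.NH14.SM.circ_sep` has this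
form, also for short intervals). The constant `C` depends only on `ε`.

Method: Voronoi summation, a splitting of the smoothed series into blocks, duality (Halász–Montgomery) with the second
derivative test for the kernel `∑ e(s √m)`, and a subdivision of `[X, X + H]` whose length depends on the block.
-/

set_option autoImplicit false

namespace Pool.Agent.Results.MP_fb29e9_nt.SeparatedRadii

/-- the error term of the circle problem -/
noncomputable def P (t : ℝ) : ℝ :=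
  (Nat.card {p : ℤ × ℤ // (p.1 : ℝ) ^ 2 + (p.2 : ℝ) ^ 2 ≤ t ^ 2} : ℝ) - Real.pi * t ^ 2

/-- `T` is a set of points of the interval `[X, X + H]` with mutual distances `≥ δ` -/
def Spaced (δ X H : ℝ) (T : Finset ℝ) : Prop :=
  (∀ t ∈ T, X ≤ t ∧ t ≤ X + H) ∧ ∀ s ∈ T, ∀ t ∈ T, s ≠ t → δ ≤ |s - t|

theorem result : ∀ ε : ℝ, 0 < ε → ∃ C : ℝ, 0 < C ∧
    ∀ (X H δ : ℝ) (T : Finset ℝ), 4 ≤ X → 0 ≤ H → H ≤ X → 1 / X ≤ δ → δ ≤ 1 → Spaced δ X H T →
      (∀ V : ℝ, 1 ≤ V → (∀ t ∈ T, V * √t ≤ |P t|) →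
        (T.card : ℝ) ≤ C * X ^ ε * (H / V ^ 6 + H / (V ^ 8 * δ) + X ^ (1 / 2 : ℝ) / V ^ 3 + 1 / (V ^ 2 * δ))) ∧
      (∀ p : ℝ, 0 ≤ p → p ≤ 8 →
        ∑ t ∈ T, |P t| ^ p ≤ C * X ^ (p / 2 + ε) *
          (H / δ + H * X ^ (max 0 ((p - 6) / 6)) + X ^ (max (1 / 2) (p / 6)) + X ^ (max 0 ((p - 2) / 6)) / δ)) := by
  intro ε hε
  obtain ⟨C, hC, h1, -⟩ := Pool.Agent.NH14.SM.circ_sep (P := P) (fun t _ => rfl) hε
  exact ⟨C, hC, fun X H δ T hX hH hHX hδX hδ1 hT => h1 X H δ T hX hH hHX hδX hδ1 hT.1 hT.2⟩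

end Pool.Agent.Results.MP_fb29e9_nt.SeparatedRadii
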