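import Mathlib
import Pool.Agent.NH96.SG.InstC

/-!
# Sign changes of the error term of the circle problem (MP_fb29e9_nt)

`P(R) = #{(m, n) ∈ ℤ² : m² + n² ≤ R²} - πR²`.  For every level `v` the function `P(R) - v√R` changes
sign infinitely densely, already in windows of length a constant times `(log X)²`.

The proof: `P(R)/√R` is approximated in mean square, in all windows `[X, X + H]` with
`H ≥ K (log X)²`, by trigonometric polynomials in the frequencies `√m` (smoothed Hardy formula and a
continuous large sieve); the square roots of the squarefree numbers are linearly independent over `ℚ`,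
so these polynomials are equidistributed, uniformly in the window, like a fixed function on an infinite
torus; and for that function the rate of crossings of the level `v` at scale `h` tends to infinity as
`h → 0`, since the probability of a crossing within time `h` decays more slowly than `h`.
-/

namespace Pool.Agent.Results.MP_fb29e9_nt.SignChanges

/-- the error term of the Gauss circle problem as a function of the radius -/
noncomputable def P (R : ℝ) : ℝ :=
  (Nat.card {p : ℤ × ℤ // (p.1 : ℝ) ^ 2 + (p.2 : ℝ) ^ 2 ≤ R ^ 2} : ℝ) - Real.pi * R ^ 2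

/-- For all real `v` and `C` there are `η, K > 0` and `X₀` such that for all `X ≥ X₀` and all
`H ≥ K (log X)²` there are `n ≥ C H` and `t₀ < t₁ < ... < tₙ` in `[X, X + H]` for which the
numbers `P(tᵢ) - v √tᵢ` alternate in sign and are at least `η √tᵢ` in absolute value. -/
theorem result (v C : ℝ) : ∃ η K X₀ : ℝ, 0 < η ∧ 0 < K ∧ 4 ≤ X₀ ∧
    ∀ X : ℝ, X₀ ≤ X → ∀ H : ℝ, K * (Real.log X) ^ 2 ≤ H →
      ∃ (n : ℕ) (t : Fin (n + 1) → ℝ), C * H ≤ n ∧ StrictMono t ∧
        (∀ i, t i ∈ Set.Icc X (X + H)) ∧
        (∀ i, η * √(t i) ≤ |P (t i) - v * √(t i)|) ∧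
        ∀ i : Fin n, (P (t i.castSucc) - v * √(t i.castSucc)) * (P (t i.succ) - v * √(t i.succ)) < 0 := by
  obtain ⟨C0, hD⟩ := Pool.Agent.NH96.SG.circ_Dt
  obtain ⟨η, K, X0, hη, hK, hX0, hm⟩ := Pool.Agent.NH96.SG.main hD v C
  refine ⟨η, K, X0, hη, hK, hX0, fun X hX H hH => ?_⟩
  obtain ⟨n, t, h1, h2, h3, h4⟩ := hm X hX H hH
  have hs : ∀ i, 0 < √(t i) := fun i => Real.sqrt_pos.mpr (by
    have := (h3 i).1.1
    linarith)
  have key : ∀ i, P (t i) - v * √(t i) = (Pool.Agent.H383.Gauss.En (t i) - v) * √(t i) := by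
    intro i
    have h := (hs i).ne'
    unfold Pool.Agent.H383.Gauss.En Pool.Agent.H383.Gauss.F P
    field_simp
  refine ⟨n, t, h1, h2, fun i => (h3 i).1, fun i => ?_, fun i => ?_⟩
  · rw [key i, abs_mul, abs_of_pos (hs i)]
    exact mul_le_mul_of_nonneg_right (h3 i).2 (hs i).le
  · rw [key, key]
    have h5 : (Pool.Agent.H383.Gauss.En (t i.castSucc) - v) * √(t i.castSucc) *
        ((Pool.Agent.H383.Gauss.En (t i.succ) - v) * √(t i.succ)) =
        ((Pool.Agent.H383.Gauss.En (t i.castSucc) - v) * (Pool.Agent.H383.Gauss.En (t i.succ) - v)) *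
          (√(t i.castSucc) * √(t i.succ)) := by ring
    rw [h5]
    exact mul_neg_of_neg_of_pos (h4 i) (mul_pos (hs _) (hs _))

end Pool.Agent.Results.MP_fb29e9_nt.SignChanges
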